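import Mathlib

/-! A scalarly measurable multi-function with bounded closed convex values in the separable
Banach space `C[0,1]` without scalarly measurable selector. -/

namespace Pool.Agent.Results.MP_93dabc_an.NoSelector

open MeasureTheory Filter unitInterval

/-- the countable–cocountable σ-algebra -/
@[reducible] def cc (Ω : Type) : MeasurableSpace Ω where
  MeasurableSet' s := s.Countable ∨ sᶜ.Countable
  measurableSet_empty := Or.inl Set.countable_empty
  measurableSet_compl s hs := by rw [compl_compl]; exact hs.symm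
  measurableSet_iUnion f hf := by
    by_cases h : ∀ i, (f i).Countable
    · exact Or.inl (Set.countable_iUnion h)
    · simp only [not_forall] at h
      obtain ⟨i, hi⟩ := h
      right
      have h2 := (hf i).resolve_left hi
      exact h2.mono (Set.compl_subset_compl.mpr (Set.subset_iUnion f i))

theorem cc_le : cc I ≤ (inferInstance : MeasurableSpace I) := by
  intro s hs
  rcases hs with h | h
  · exact h.measurableSet
  · rw [← compl_compl s]
    exact h.measurableSet.compl

noncomputable def μ0 : @Measure I (cc I) := (volume : Measure I).trim cc_le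

theorem μ0_null (s : Set I) : μ0 s = 0 ↔ s.Countable := by
  constructor
  · intro h
    obtain ⟨t, hst, ht, ht0⟩ := @exists_measurable_superset_of_null I (cc I) μ0 s h
    unfold μ0 at ht0
    rw [trim_measurableSet_eq cc_le ht] at ht0
    rcases ht with h1 | h1
    · exact h1.mono hst
    · exfalso
      have h2 : (volume : Measure I) tᶜ = 0 := h1.measure_zero volume
      have h3 : (volume : Measure I) Set.univ ≤ (volume : Measure I) t + (volume : Measure I) tᶜ := by
        rw [← Set.union_compl_self t]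
        exact measure_union_le _ _
      rw [ht0, h2, measure_univ] at h3
      simp at h3
  · intro h
    unfold μ0
    rw [trim_measurableSet_eq cc_le (Or.inl h)]
    exact h.measure_zero volume

theorem μ0_prob : @IsProbabilityMeasure I (cc I) μ0 := by
  refine @IsProbabilityMeasure.mk I (cc I) μ0 ?_
  unfold μ0
  rw [trim_measurableSet_eq cc_le (@MeasurableSet.univ I (cc I))]
  exact measure_univ

theorem μ0_complete : @Measure.IsComplete I (cc I) μ0 := by
  refine @Measure.IsComplete.mk I (cc I) μ0 ?_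
  intro s hs
  exact Or.inl ((μ0_null s).mp hs)

/-- the jump function -/
noncomputable def g (t : I) : ℝ := if (t : ℝ) ≤ 1 / 2 then 1 else 0

theorem g_mem (t : I) : |g t| ≤ 1 := by
  unfold g; split_ifs <;> simp

/-- the multi-function -/
def F (t : I) : Set C(I, ℝ) := {x | ‖x‖ ≤ 1 ∧ x t = g t}

theorem F_nonempty (t : I) : (F t).Nonempty := by
  refine ⟨ContinuousMap.const I (g t), ?_, rfl⟩
  rw [ContinuousMap.norm_le _ (by norm_num)]
  intro s
  exact g_mem t

theorem F_convex (t : I) : Convex ℝ (F t) := by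
  rintro x ⟨hx1, hx2⟩ y ⟨hy1, hy2⟩ a b ha hb hab
  refine ⟨?_, ?_⟩
  · calc ‖a • x + b • y‖ ≤ ‖a • x‖ + ‖b • y‖ := norm_add_le _ _
      _ = a * ‖x‖ + b * ‖y‖ := by
        rw [norm_smul, norm_smul, Real.norm_of_nonneg ha, Real.norm_of_nonneg hb]
      _ ≤ a * 1 + b * 1 := by gcongr
      _ = 1 := by linarith
  · simp only [ContinuousMap.add_apply, ContinuousMap.smul_apply, hx2, hy2, smul_eq_mul]
    rw [← add_mul, hab, one_mul]

theorem F_closed (t : I) : IsClosed (F t) := by
  have h1 : IsClosed {x : C(I, ℝ) | ‖x‖ ≤ 1} := isClosed_le continuous_norm continuous_const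
  have h2 : IsClosed {x : C(I, ℝ) | x t = g t} :=
    isClosed_eq (continuous_eval_const t) continuous_const
  exact h1.inter h2

theorem F_bounded (t : I) : Bornology.IsBounded (F t) := by
  refine (Metric.isBounded_closedBall (x := (0 : C(I, ℝ))) (r := 1)).subset ?_
  intro x hx
  rw [mem_closedBall_zero_iff]
  exact hx.1

theorem finite_exc (φ : C(I, ℝ) →L[ℝ] ℝ) (a : ℝ) (ha : a < ‖φ‖) :
    {t : I | ¬ ∃ x ∈ F t, a < φ x}.Finite := by
  classical
  obtain ⟨x0, hx0, hφ0⟩ : ∃ x : C(I, ℝ), ‖x‖ ≤ 1 ∧ (‖φ‖ + a) / 2 < φ x := by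
    obtain ⟨x, hx1, hx2⟩ := φ.exists_lt_apply_of_lt_opNorm (r := (‖φ‖ + a) / 2) (by linarith)
    rcases le_total 0 (φ x) with h | h
    · exact ⟨x, hx1.le, by rwa [Real.norm_of_nonneg h] at hx2⟩
    · refine ⟨-x, by rw [norm_neg]; exact hx1.le, ?_⟩
      rw [map_neg]
      rwa [Real.norm_of_nonpos h] at hx2
  by_contra hinf
  have hη : 0 < (‖φ‖ - a) / 2 := by linarith
  obtain ⟨n, hn⟩ := exists_nat_gt (2 * ‖φ‖ / ((‖φ‖ - a) / 2))
  obtain ⟨T, hT1, hT2⟩ := Set.Infinite.exists_subset_card_eq hinf n
  -- separation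
  obtain ⟨δ, hδ, hsep⟩ : ∃ δ : ℝ, 0 < δ ∧ ∀ s ∈ T, ∀ t ∈ T, s ≠ t → 2 * δ ≤ dist s t := by
    rcases T.offDiag.eq_empty_or_nonempty with h | h
    · refine ⟨1, one_pos, ?_⟩
      intro s hs t ht hst
      exfalso
      have : (s, t) ∈ T.offDiag := Finset.mem_offDiag.mpr ⟨hs, ht, hst⟩
      rw [h] at this
      simp at this
    · obtain ⟨p, hp, hmin⟩ := T.offDiag.exists_min_image (fun p => dist p.1 p.2) h
      rw [Finset.mem_offDiag] at hp
      refine ⟨dist p.1 p.2 / 2, half_pos (dist_pos.mpr hp.2.2), ?_⟩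
      intro s hs t ht hst
      have := hmin (s, t) (Finset.mem_offDiag.mpr ⟨hs, ht, hst⟩)
      simp only at this
      linarith
  -- bumps
  let ψ : I → C(I, ℝ) := fun t => ⟨fun x => max 0 (1 - dist x t / δ), by fun_prop⟩
  have hψ0 : ∀ t x, 0 ≤ ψ t x := fun t x => le_max_left _ _
  have hψ1 : ∀ t x, ψ t x ≤ 1 := by
    intro t x
    have : 0 ≤ dist x t / δ := by positivity
    exact max_le zero_le_one (by linarith)
  have hψt : ∀ t, ψ t t = 1 := by
    intro t
    show max 0 (1 - dist t t / δ) = 1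
    simp
  have hψsupp : ∀ t x, ψ t x ≠ 0 → dist x t < δ := by
    intro t x h
    by_contra hcon
    rw [not_lt] at hcon
    apply h
    show max 0 (1 - dist x t / δ) = 0
    apply max_eq_left
    have : 1 ≤ dist x t / δ := by rwa [le_div_iff₀ hδ, one_mul]
    linarith
  let d : I → C(I, ℝ) := fun t => ψ t * (x0 - ContinuousMap.const I (g t))
  have hx0' : ∀ x, |x0 x| ≤ 1 := fun x => (x0.norm_coe_le_norm x).trans hx0
  have hdF : ∀ t, x0 - d t ∈ F t := by
    intro t
    refine ⟨?_, ?_⟩
    · rw [ContinuousMap.norm_le _ (by norm_num)]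
      intro x
      have e : (x0 - d t) x = (1 - ψ t x) * x0 x + ψ t x * g t := by
        simp only [d, ContinuousMap.sub_apply, ContinuousMap.mul_apply, ContinuousMap.const_apply]
        ring
      rw [e, Real.norm_eq_abs]
      calc |(1 - ψ t x) * x0 x + ψ t x * g t| ≤ |(1 - ψ t x) * x0 x| + |ψ t x * g t| :=
            abs_add_le _ _
        _ = (1 - ψ t x) * |x0 x| + ψ t x * |g t| := by
            rw [abs_mul, abs_mul, abs_of_nonneg (show 0 ≤ 1 - ψ t x by linarith [hψ1 t x]),
              abs_of_nonneg (hψ0 t x)]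
        _ ≤ (1 - ψ t x) * 1 + ψ t x * 1 := by
            have h1 := hx0' x
            have h2 := g_mem t
            have h3 := hψ0 t x
            have h4 := hψ1 t x
            gcongr
        _ = 1 := by ring
    · simp only [d, ContinuousMap.sub_apply, ContinuousMap.mul_apply, ContinuousMap.const_apply, hψt]
      ring
  have hφd : ∀ t ∈ T, (‖φ‖ - a) / 2 < φ (d t) := by
    intro t ht
    have h1 : ¬ ∃ x ∈ F t, a < φ x := hT1 ht
    have h2 : φ (x0 - d t) ≤ a := by
      by_contra hcon
      exact h1 ⟨_, hdF t, not_le.mp hcon⟩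
    rw [map_sub] at h2
    linarith
  have hsum : (n : ℝ) * ((‖φ‖ - a) / 2) ≤ φ (∑ t ∈ T, d t) := by
    rw [map_sum]
    calc (n : ℝ) * ((‖φ‖ - a) / 2) = ∑ t ∈ T, (‖φ‖ - a) / 2 := by
          rw [Finset.sum_const, hT2, nsmul_eq_mul]
      _ ≤ ∑ t ∈ T, φ (d t) := Finset.sum_le_sum (fun t ht => (hφd t ht).le)
  have hnorm : ‖∑ t ∈ T, d t‖ ≤ 2 := by
    rw [ContinuousMap.norm_le _ (by norm_num)]
    intro x
    rw [ContinuousMap.sum_apply]
    have hdx : ∀ t, |d t x| ≤ 2 := by
      intro t
      simp only [d, ContinuousMap.sub_apply, ContinuousMap.mul_apply, ContinuousMap.const_apply]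
      rw [abs_mul, abs_of_nonneg (hψ0 t x)]
      have h1 : |x0 x - g t| ≤ 2 := by
        refine (abs_sub _ _).trans ?_
        have := hx0' x
        have := g_mem t
        linarith
      have h2 := hψ1 t x
      have h3 := hψ0 t x
      have h4 := abs_nonneg (x0 x - g t)
      nlinarith
    by_cases hex : ∃ t ∈ T, ψ t x ≠ 0
    · obtain ⟨t, ht, htx⟩ := hex
      rw [Finset.sum_eq_single_of_mem t ht]
      · exact hdx t
      · intro s hs hst
        have hs0 : ψ s x = 0 := by
          by_contra hcon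
          have h1 := hψsupp t x htx
          have h2 := hψsupp s x hcon
          have h3 := hsep s hs t ht hst
          have h4 := dist_triangle_left s t x
          linarith
        simp only [d, ContinuousMap.mul_apply, hs0, zero_mul]
    · simp only [not_exists, not_and, not_not] at hex
      rw [Finset.sum_eq_zero]
      · simp
      · intro s hs
        simp only [d, ContinuousMap.mul_apply, hex s hs, zero_mul]
  have hle : φ (∑ t ∈ T, d t) ≤ ‖φ‖ * 2 := by
    refine (le_abs_self _).trans ?_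
    rw [← Real.norm_eq_abs]
    refine (φ.le_opNorm _).trans ?_
    gcongr
  rw [div_lt_iff₀ hη] at hn
  linarith

theorem F_meas (φ : C(I, ℝ) →L[ℝ] ℝ) (a : ℝ) :
    @MeasurableSet I (cc I) {t : I | ∃ x ∈ F t, a < φ x} := by
  rcases lt_or_ge a ‖φ‖ with h | h
  · right
    exact (finite_exc φ a h).countable
  · left
    have : {t : I | ∃ x ∈ F t, a < φ x} = ∅ := by
      rw [Set.eq_empty_iff_forall_notMem]
      rintro t ⟨x, hx, hax⟩
      have h1 : φ x ≤ ‖φ‖ * ‖x‖ := (le_abs_self _).trans (φ.le_opNorm x)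
      have h2 := hx.1
      have h3 := norm_nonneg φ
      nlinarith
    rw [this]
    exact Set.countable_empty

theorem no_selector : ¬ ∃ f : I → C(I, ℝ), (∀ t, f t ∈ F t) ∧
    ∀ φ : C(I, ℝ) →L[ℝ] ℝ, @Measurable I ℝ (cc I) _ (fun t => φ (f t)) := by
  rintro ⟨f, hf, hm⟩
  have hprob := μ0_prob
  -- each evaluation is a.e. constant
  have hconst : ∀ x : I, ∃ c : ℝ, (fun t => f t x) =ᶠ[ae μ0] Function.const I c := by
    intro x
    apply exists_eventuallyEq_const_of_forall_separating MeasurableSet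
    intro U hU
    have h1 := hm (ContinuousMap.evalCLM ℝ x) hU
    rcases h1 with h2 | h2
    · right
      rw [eventually_iff, mem_ae_iff]
      have : {t : I | f t x ∉ U}ᶜ = (fun t => (ContinuousMap.evalCLM ℝ x) (f t)) ⁻¹' U := by
        ext t; simp
      rw [this]
      exact (μ0_null _).mpr h2
    · left
      rw [eventually_iff, mem_ae_iff]
      exact (μ0_null _).mpr h2
  choose c hc using hconst
  let D : ℕ → I := TopologicalSpace.denseSeq I
  have hD : DenseRange D := TopologicalSpace.denseRange_denseSeq I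
  have hall : ∀ᶠ t in ae μ0, ∀ n, f t (D n) = c (D n) := by
    rw [eventually_countable_forall]
    intro n
    exact hc (D n)
  have hcount : {t : I | ¬ ∀ n, f t (D n) = c (D n)}.Countable := by
    rw [← μ0_null]
    rw [eventually_iff, mem_ae_iff] at hall
    exact hall
  -- a point in the good set
  have hunc : ∀ a b : ℝ, 0 ≤ a → a < b → b ≤ 1 →
      ∃ t : I, a < t ∧ (t : ℝ) < b ∧ ∀ n, f t (D n) = c (D n) := by
    intro a b ha hab hb
    by_contra hcon
    have hsub : Set.Ioo a b ⊆ Subtype.val '' {t : I | ¬ ∀ n, f t (D n) = c (D n)} := by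
      intro y hy
      refine ⟨⟨y, by linarith [hy.1], by linarith [hy.2]⟩, ?_, rfl⟩
      intro h
      exact hcon ⟨⟨y, by linarith [hy.1], by linarith [hy.2]⟩, hy.1, hy.2, h⟩
    have h1 : (Set.Ioo a b).Countable := (hcount.image _).mono hsub
    have h2 := h1.measure_zero volume
    rw [Real.volume_Ioo, ENNReal.ofReal_eq_zero] at h2
    linarith
  obtain ⟨t0, _, _, ht0⟩ := hunc 0 1 le_rfl one_pos le_rfl
  have heq : ∀ t : I, (∀ n, f t (D n) = c (D n)) → f t = f t0 := by
    intro t ht
    apply ContinuousMap.coe_injective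
    apply hD.equalizer (f t).continuous (f t0).continuous
    funext n
    simp only [Function.comp]
    rw [ht n, ht0 n]
  -- continuity at 1/2
  let half : I := ⟨1 / 2, by norm_num, by norm_num⟩
  have hcont := (f t0).continuous.continuousAt (x := half)
  rw [Metric.continuousAt_iff] at hcont
  obtain ⟨δ, hδ, hδ2⟩ := hcont (1 / 2) (by norm_num)
  have hm1 : max 0 (1 / 2 - δ) < 1 / 2 := max_lt (by norm_num) (by linarith)
  have hm2 : 1 / 2 < min 1 (1 / 2 + δ) := lt_min (by norm_num) (by linarith)
  obtain ⟨s, hs1, hs2, hs3⟩ := hunc (max 0 (1 / 2 - δ)) (1 / 2) (le_max_left _ _) hm1 (by norm_num)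
  obtain ⟨u, hu1, hu2, hu3⟩ := hunc (1 / 2) (min 1 (1 / 2 + δ)) (by norm_num) hm2 (min_le_left _ _)
  have e1 : f t0 s = 1 := by
    rw [← heq s hs3, (hf s).2]
    unfold g
    rw [if_pos hs2.le]
  have e2 : f t0 u = 0 := by
    rw [← heq u hu3, (hf u).2]
    unfold g
    rw [if_neg (not_le.mpr hu1)]
  have d1 : dist s half < δ := by
    rw [Subtype.dist_eq, Real.dist_eq, abs_lt]
    have := le_max_right 0 (1 / 2 - δ)
    constructor
    · show -δ < (s : ℝ) - 1 / 2
      linarith
    · show (s : ℝ) - 1 / 2 < δ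
      linarith
  have d2 : dist u half < δ := by
    rw [Subtype.dist_eq, Real.dist_eq, abs_lt]
    have := min_le_right 1 (1 / 2 + δ)
    constructor
    · show -δ < (u : ℝ) - 1 / 2
      linarith
    · show (u : ℝ) - 1 / 2 < δ
      linarith
  have r1 := hδ2 d1
  have r2 := hδ2 d2
  rw [e1, Real.dist_eq, abs_lt] at r1
  rw [e2, Real.dist_eq, abs_lt] at r2
  linarith [r1.1, r1.2, r2.1, r2.2]

/-- There are a complete probability space, a separable Banach space `X` and a scalarly
measurable multi-function with non-empty bounded closed convex values in `X` that has no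
scalarly measurable selector. -/
theorem result :
    ∃ (Ω : Type) (_ : MeasurableSpace Ω) (μ : Measure Ω)
      (X : Type) (_ : NormedAddCommGroup X) (_ : NormedSpace ℝ X) (F : Ω → Set X),
      IsProbabilityMeasure μ ∧ μ.IsComplete ∧
      CompleteSpace X ∧ TopologicalSpace.SeparableSpace X ∧
      (∀ t, (F t).Nonempty ∧ Convex ℝ (F t) ∧ IsClosed (F t) ∧ Bornology.IsBounded (F t)) ∧
      (∀ φ : X →L[ℝ] ℝ, φ ≠ 0 → ∀ a : ℝ,
        MeasurableSet {t | (F t ∩ {x | a < φ x}).Nonempty}) ∧
      ¬ ∃ f : Ω → X, (∀ t, f t ∈ F t) ∧ ∀ φ : X →L[ℝ] ℝ, Measurable (fun t => φ (f t)) := by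
  refine ⟨I, cc I, μ0, C(I, ℝ), inferInstance, inferInstance, F, μ0_prob, μ0_complete,
    inferInstance, inferInstance, fun t => ⟨F_nonempty t, F_convex t, F_closed t, F_bounded t⟩,
    ?_, no_selector⟩
  intro φ _ a
  exact F_meas φ a

end Pool.Agent.Results.MP_93dabc_an.NoSelector
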